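import Mathlib
import Pool.Agent.KS7_39.A13.B

set_option autoImplicit false
open Set Filter Topology TopologicalSpace MvPowerSeries Finsupp

namespace Pool.Agent.Results.MP_13a5bb_an.Submodules

open Pool.Agent.KS7_39.A13

/-- `t` is an F-space topology on the `𝕜`-vector space `E`: a completely metrizable vector space
topology (local convexity is not assumed). -/
def IsFTop (𝕜 : Type) {E : Type} [NontriviallyNormedField 𝕜] [AddCommGroup E] [Module 𝕜 E]
    (t : TopologicalSpace E) : Prop :=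
  @IsTopologicalAddGroup E t _ ∧ @ContinuousSMul 𝕜 E _ _ t ∧ @IsCompletelyMetrizableSpace E t

lemma pack {𝕜 A : Type} [NontriviallyNormedField 𝕜] [AddCommGroup A] [Module 𝕜 A]
    [TopologicalSpace A] [IsTopologicalAddGroup A]
    [ContinuousSMul 𝕜 A] [IsCompletelyMetrizableSpace A] :
    ∃ ν : AddGroupNorm A, Continuous (sy ν) ∧ Continuous (sy ν).symm ∧ CompleteSpace (Sy ν) ∧
      ContinuousSMul 𝕜 (Sy ν) := by
  obtain ⟨ν, h1, h2, h3⟩ := exn (A := A)
  exact ⟨ν, h1, h2, h3, ⟨h1.comp (continuous_fst.smul (h2.comp continuous_snd))⟩⟩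

/-- A power series multiplying `E` into itself, as a linear map of `E`. -/
noncomputable def mulE {σ 𝕜 : Type} [NontriviallyNormedField 𝕜]
    (E : Submodule 𝕜 (MvPowerSeries σ 𝕜)) (g : MvPowerSeries σ 𝕜) (h : ∀ e ∈ E, g * e ∈ E) :
    E →ₗ[𝕜] E where
  toFun e := ⟨g * e.1, h e.1 e.2⟩
  map_add' a b := Subtype.ext (by simp [mul_add])
  map_smul' c a := Subtype.ext (by simp)

lemma up {𝕜 A : Type} [NontriviallyNormedField 𝕜] [AddCommGroup A] [Module 𝕜 A]
    (t : TopologicalSpace A) (ν : AddGroupNorm A) (k1 : Continuous (sy ν))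
    (k2 : Continuous (sy ν).symm) (T : A →ₗ[𝕜] A) (hT : Continuous T) :
    ∃ L : Sy ν →L[𝕜] Sy ν, ∀ f : A, L f = T f := by
  have h : Continuous (sy ν ∘ T ∘ (sy ν).symm) := k1.comp (hT.comp k2)
  exact ⟨⟨T, h⟩, fun _ => rfl⟩

lemma mon {σ 𝕜 : Type} [NontriviallyNormedField 𝕜]
    (E : Submodule 𝕜 (MvPowerSeries σ 𝕜)) (hX : ∀ i, ∀ f ∈ E, X i * f ∈ E)
    (t : TopologicalSpace E) (b4 : ∀ i, @Continuous E E t t fun f => ⟨X i * f.1, hX i f.1 f.2⟩)
    (J : σ →₀ ℕ) : ∃ h : ∀ f ∈ E, monomial J (1 : 𝕜) * f ∈ E,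
      @Continuous E E t t fun f => ⟨monomial J 1 * f.1, h f.1 f.2⟩ := by
  induction J using Finsupp.induction_linear with
  | zero =>
    refine ⟨fun f hf => by simpa using hf, ?_⟩
    convert @continuous_id E t using 1
    funext f
    exact Subtype.ext (by simp)
  | add J K h1 h2 =>
    obtain ⟨h1, c1⟩ := h1
    obtain ⟨h2, c2⟩ := h2
    have e : ∀ f : MvPowerSeries σ 𝕜, monomial (J + K) (1 : 𝕜) * f =
        monomial J 1 * (monomial K 1 * f) := fun f => by
      rw [← mul_assoc, monomial_mul_monomial, one_mul]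
    refine ⟨fun f hf => by rw [e]; exact h1 _ (h2 _ hf), ?_⟩
    convert @Continuous.comp _ _ _ t t t _ _ c1 c2 using 1
    funext f
    exact Subtype.ext (e _)
  | single i n =>
    induction n with
    | zero =>
      refine ⟨fun f hf => by simpa using hf, ?_⟩
      convert @continuous_id E t using 1
      funext f
      exact Subtype.ext (by simp)
    | succ n ih =>
      obtain ⟨h1, c1⟩ := ih
      have e : ∀ f : MvPowerSeries σ 𝕜, monomial (single i (n + 1)) (1 : 𝕜) * f =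
          monomial (single i n) 1 * (X i * f) := fun f => by
        rw [← mul_assoc, X, monomial_mul_monomial, one_mul, single_add]
      refine ⟨fun f hf => by rw [e]; exact h1 _ (hX i _ hf), ?_⟩
      convert @Continuous.comp _ _ _ t t t _ _ c1 (b4 i) using 1
      funext f
      exact Subtype.ext (e _)

/-- The general statement, for submodules. -/
theorem general {σ 𝕜 : Type} [Finite σ] [Nonempty σ] [NontriviallyNormedField 𝕜]
    [CompleteSpace 𝕜] (E : Submodule 𝕜 (MvPowerSeries σ 𝕜)) (hX : ∀ i, ∀ f ∈ E, X i * f ∈ E)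
    (t₁ t₂ : TopologicalSpace E) (a : IsFTop 𝕜 t₁)
    (a4 : ∀ n : σ →₀ ℕ, @Continuous E 𝕜 t₁ _ fun f => coeff n f.1) (b : IsFTop 𝕜 t₂)
    (b4 : ∀ i, @Continuous E E t₂ t₂ fun f => ⟨X i * f.1, hX i f.1 f.2⟩)
    (b5 : ∀ f ∈ E, f ≠ 0 → ∃ g : MvPowerSeries σ 𝕜, g * f ≠ 0 ∧ ∃ h : ∀ e ∈ E, g * f * e ∈ E,
      @Continuous E E t₂ t₂ fun e => ⟨g * f * e.1, h e.1 e.2⟩) : t₁ = t₂ := by
  classical
  have := Fintype.ofFinite σ
  obtain ⟨ν, h1, h2, h3, h4⟩ := @pack 𝕜 E _ _ _ t₁ a.1 a.2.1 a.2.2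
  obtain ⟨ν', k1, k2, k3, k4⟩ := @pack 𝕜 E _ _ _ t₂ b.1 b.2.1 b.2.2
  have hJ : ∀ J : σ →₀ ℕ, ∀ f ∈ E, monomial J (1 : 𝕜) * f ∈ E := fun J => (mon E hX t₂ b4 J).1
  let ι : Sy ν →ₗ[𝕜] MvPowerSeries σ 𝕜 := E.subtype
  have hc : ∀ J, Continuous fun f : Sy ν => coeff J (ι f) := fun J =>
    @Continuous.comp _ _ _ _ t₁ _ _ _ (a4 J) h2
  have cl : ∀ J, Continuous (show Sy ν →ₗ[𝕜] Sy ν from mulE E (monomial J 1) (hJ J)) := by
    intro J
    refine cgt _ ?_
    have : ((show Sy ν →ₗ[𝕜] Sy ν from mulE E (monomial J 1) (hJ J)).graph : Set (Sy ν × Sy ν)) =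
        ⋂ n : σ →₀ ℕ, {p : Sy ν × Sy ν | coeff n (ι p.2) =
          coeff n (monomial J (1 : 𝕜) * ι p.1)} := by
      ext p
      simp only [mem_iInter, mem_ofPred_eq]
      constructor
      · intro h n
        exact congrArg (fun e : E => coeff n e.1) h
      · intro h
        exact Subtype.ext (MvPowerSeries.ext h)
    rw [this]
    refine isClosed_iInter fun n => isClosed_eq ((hc n).comp continuous_snd) ?_
    simp only [coeff_mul]
    exact continuous_finsetSum _ fun q _ => continuous_const.mul ((hc q.2).comp continuous_fst)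
  have hM' : ∀ J : σ →₀ ℕ, ∃ L : Sy ν' →L[𝕜] Sy ν', ∀ f : Sy ν',
      E.subtype (L f) = monomial J 1 * E.subtype f := fun J => by
    obtain ⟨h, c⟩ := mon E hX t₂ b4 J
    obtain ⟨L, hL⟩ := up t₂ ν' k1 k2 (mulE E (monomial J 1) h) c
    exact ⟨L, fun f => congrArg (fun e : E => e.1) (hL f)⟩
  choose M' hM' using hM'
  obtain ⟨c1, c2⟩ := main (E := Sy ν) (E' := Sy ν') E.subtype Subtype.val_injective
    (LinearEquiv.refl 𝕜 E) hc (fun J => ⟨_, cl J⟩) (fun J b => rfl) M' hM' (fun f hf => by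
      obtain ⟨g, hg, h, c⟩ := b5 (f : E).1 (f : E).2 fun h => hf (Subtype.ext h)
      obtain ⟨L, hL⟩ := up t₂ ν' k1 k2 (mulE E (g * (f : E).1) h) c
      exact ⟨g, hg, L, fun f => congrArg (fun e : E => e.1) (hL f)⟩)
  exact le_antisymm
    (continuous_id_iff_le.1 (@Continuous.comp _ _ _ t₁ _ t₂ _ _ k2
      (@Continuous.comp _ _ _ t₁ _ _ _ _ c2 h1)))
    (continuous_id_iff_le.1 (@Continuous.comp _ _ _ t₂ _ t₁ _ _ h2
      (@Continuous.comp _ _ _ t₂ _ _ _ _ c1 k1)))

/-- **Uniqueness of the F-space topology on submodules of power series in `k` variables.** Let `𝕜`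
be a complete nontrivially normed field (`ℝ`, `ℂ`, `ℚ_p`, ...), `σ` a finite nonempty set of
indeterminates, `E ⊆ 𝕜⟦X_i : i ∈ σ⟧` a linear subspace with `X_i E ⊆ E`. Let `t₁` be an F-space
topology on `E` in which all coefficients are continuous.

1. (Algebras, without unit and not containing the polynomials.) If `E E ⊆ E`, then `t₁` is the only
F-space topology on `E` in which multiplication by each `X_i` and by each element of `E` is
continuous.
2. (Modules.) The same for any `E`, for topologies `t₂` in which multiplication by each `X_i` is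
continuous and each nonzero `f ∈ E` has a nonzero multiple `g f`, `g` any power series, with
`g f E ⊆ E` and `e ↦ g f e` continuous.
3. (One variable.) If `σ` has one element, `t₁` is the only F-space topology on `E` in which
multiplication by `X` is continuous. -/
theorem result (σ 𝕜 : Type) [Finite σ] [Nonempty σ] [NontriviallyNormedField 𝕜]
    [CompleteSpace 𝕜] (E : Submodule 𝕜 (MvPowerSeries σ 𝕜)) (hX : ∀ i, ∀ f ∈ E, X i * f ∈ E)
    (t₁ : TopologicalSpace E) (ht₁ : IsFTop 𝕜 t₁)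
    (hc : ∀ n : σ →₀ ℕ, @Continuous E 𝕜 t₁ _ fun f => coeff n f.1)
    (t₂ : TopologicalSpace E) (ht₂ : IsFTop 𝕜 t₂)
    (hX₂ : ∀ i, @Continuous E E t₂ t₂ fun f => ⟨X i * f.1, hX i f.1 f.2⟩) :
    (∀ hE : ∀ f ∈ E, ∀ e ∈ E, f * e ∈ E,
      (∀ f : E, @Continuous E E t₂ t₂ fun e => ⟨f.1 * e.1, hE f.1 f.2 e.1 e.2⟩) → t₁ = t₂) ∧
    ((∀ f ∈ E, f ≠ 0 → ∃ g : MvPowerSeries σ 𝕜, g * f ≠ 0 ∧ ∃ h : ∀ e ∈ E, g * f * e ∈ E,
      @Continuous E E t₂ t₂ fun e => ⟨g * f * e.1, h e.1 e.2⟩) → t₁ = t₂) ∧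
    (Nat.card σ = 1 → t₁ = t₂) := by
  refine ⟨fun hE hf => general E hX t₁ t₂ ht₁ hc ht₂ hX₂ fun f hfE f0 => ?_,
    general E hX t₁ t₂ ht₁ hc ht₂ hX₂, fun hσ => general E hX t₁ t₂ ht₁ hc ht₂ hX₂ fun f hfE f0 => ?_⟩
  · refine ⟨1, by rwa [one_mul], fun e he => by rw [one_mul]; exact hE f hfE e he, ?_⟩
    convert hf ⟨f, hfE⟩ using 1
    funext e
    exact Subtype.ext (congrArg (· * e.1) (one_mul f))
  · have hsub : Subsingleton σ := (Nat.card_eq_one_iff_unique.1 hσ).1
    have key : ∃ (g : MvPowerSeries σ 𝕜) (J : σ →₀ ℕ), g * f = monomial J 1 := by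
      obtain ⟨K, hK⟩ : ∃ K, coeff K f ≠ 0 := by
        by_contra h
        push Not at h
        exact f0 (MvPowerSeries.ext fun K => by simpa using h K)
      obtain ⟨J, hJ, hmin⟩ := WellFounded.has_min (wellFounded_lt (α := σ →₀ ℕ))
        {K | coeff K f ≠ 0} ⟨K, hK⟩
      have hle : ∀ K, coeff K f ≠ 0 → J ≤ K := by
        intro K hK
        obtain ⟨i⟩ := ‹Nonempty σ›
        rcases le_total (J i) (K i) with h | h
        · intro j
          rwa [Subsingleton.elim j i]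
        · have hKJ : K ≤ J := by
            intro j
            rwa [Subsingleton.elim j i]
          exact (eq_of_le_of_not_lt hKJ (hmin K hK)).ge
      let u : MvPowerSeries σ 𝕜 := fun K => coeff (K + J) f
      have hu : ∀ K, coeff K u = coeff (K + J) f := fun K => rfl
      have hf : f = monomial J 1 * u := by
        ext K
        rw [coeff_monomial_mul]
        split_ifs with h
        · rw [hu, tsub_add_cancel_of_le h, one_mul]
        · by_contra hne
          exact h (hle K hne)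
      refine ⟨u⁻¹, J, ?_⟩
      have h0 : constantCoeff u ≠ 0 := by
        rw [← coeff_zero_eq_constantCoeff_apply, hu, zero_add]
        exact hJ
      rw [hf, mul_left_comm, MvPowerSeries.inv_mul_cancel u h0, mul_one]
    obtain ⟨g, J, e⟩ := key
    obtain ⟨h, c⟩ := mon E hX t₂ hX₂ J
    refine ⟨g, ?_, ?_⟩
    · rw [e]
      intro h0
      have := congrArg (coeff J) h0
      simp at this
    · rw [e]
      exact ⟨h, c⟩

end Pool.Agent.Results.MP_13a5bb_an.Submodules
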